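import Pool.Agent.Results.MP_78d38b_nt.PolynomialFields
import Pool.Agent.V11109.TWI.Basic
import Pool.Agent.Y854.GM.Sets

/-!
# Ranks and Tate-Shafarevich groups at the terms of sparse sequences

`E : y² = x³ + A x + B` is an elliptic curve with three integer roots and `D₀`, `D₁`, ..., `D_s` are
arbitrary nonzero polynomials with integer coefficients.  `W_t` is the quadratic twist of `E` by
`D₀(t)`, considered over the field `F_t = ℚ(√D₁(t), ..., √D_s(t))` (for `s = 0` over `ℚ`).  Let `c > 1`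
be a real number.  There is a set `A₀` of real numbers of Hausdorff dimension smaller than one such that
for all `α > 0` outside `A₀`, for all such data, the following holds at `t = ⌊α n ^ c⌋`: the proportion
of the `n ≤ N` with `rank W_t(F_t) + corank Ш(W_t / F_t)[2^∞] ≥ r` is at most `C_k / 2 ^ (k r)` for all
`k`, for all large `N`, with constants `C_k` independent of `α` and `r`.

The starting result `PolynomialFields` has the same bounds for the averages over the integers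
`t ≤ X`.  The sequences considered here contain only about `X ^ (1/c)` of them.
-/

set_option autoImplicit false

namespace Pool.Agent.Results.MP_7cad78_nt.TwistsOverVaryingFields

open Finset Polynomial
open Pool.Agent.TH841.NF.D (HasDiv crk rk)
open Pool.Agent.Results.MP_78d38b_nt.PolynomialFields (EF Gen Par)
open Pool.Agent.V11109.TWI (NFld exists_gen countable_poly)

/-- The integer `t` is not a zero of one of the polynomials. -/
def Good {s : ℕ} (D₀ : ℤ[X]) (D : Fin s → ℤ[X]) (t : ℤ) : Prop :=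
  D₀.eval t ≠ 0 ∧ ∀ i, (D i).eval t ≠ 0

/-- the bad sets of integers -/
def P (A B : ℤ) {s : ℕ} (D₀ : ℤ[X]) (D : Fin s → ℤ[X]) (r : ℕ) : Set ℕ :=
  {t : ℕ | Good D₀ D t ∧ ∃ F : NFld, Gen F.K (fun i => (D i).eval (t : ℤ)) ∧
    r ≤ rk (EF (D₀.eval (t : ℤ) ^ 2 * A) (D₀.eval (t : ℤ) ^ 3 * B) F.K) +
      crk (EF (D₀.eval (t : ℤ) ^ 2 * A) (D₀.eval (t : ℤ) ^ 3 * B) F.K)}

open Classical in
/-- the number of bad integers up to `X` -/
lemma count (A B e₁ e₂ e₃ : ℤ) (hE : 4 * A ^ 3 + 27 * B ^ 2 ≠ 0)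
    (he : ∀ x : ℤ, x ^ 3 + A * x + B = (x - e₁) * (x - e₂) * (x - e₃))
    {s : ℕ} (D₀ : ℤ[X]) (hD₀ : D₀ ≠ 0) (D : Fin s → ℤ[X]) (hD : ∀ i, D i ≠ 0) (k : ℕ) :
    ∃ C : ℝ, ∀ r X : ℕ, 1 ≤ X → (((Ioc 0 X).filter (fun t => t ∈ P A B D₀ D r)).card : ℝ) ≤
      C * X / 2 ^ (k * r) := by
  obtain ⟨C, hC⟩ := Pool.Agent.Results.MP_78d38b_nt.PolynomialFields.result A B e₁ e₂ e₃ hE he s D₀
    hD₀ D hD k 1
  refine ⟨C, fun r X hX => ?_⟩
  have hchoice : ∀ t : ℤ, ∃ F : NFld, Gen F.K (fun i => (D i).eval t) ∧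
      (∀ u : ℕ, (u : ℤ) = t → u ∈ P A B D₀ D r →
        r ≤ rk (EF (D₀.eval t ^ 2 * A) (D₀.eval t ^ 3 * B) F.K) +
          crk (EF (D₀.eval t ^ 2 * A) (D₀.eval t ^ 3 * B) F.K)) := by
    intro t
    by_cases h : ∃ u : ℕ, (u : ℤ) = t ∧ u ∈ P A B D₀ D r
    · obtain ⟨u, rfl, hu⟩ := h
      obtain ⟨_, F, hF, hr⟩ := hu
      exact ⟨F, hF, fun _ _ _ => hr⟩
    · obtain ⟨F, x, hx, hx'⟩ := exists_gen (fun i => (D i).eval t)
      exact ⟨F, ⟨x, hx, hx'⟩, fun u hu hu' => absurd ⟨u, hu, hu'⟩ h⟩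
  choose Fb hFb hFb' using hchoice
  obtain ⟨_, _, h3⟩ := hC 0 X hX (by simp) (fun t => (Fb t).K) (fun t _ => hFb t)
    (fun t => EF (D₀.eval t ^ 2 * A) (D₀.eval t ^ 3 * B) (Fb t).K) (fun _ => rfl)
  refine le_trans ?_ (h3 r)
  have hinj : Function.Injective (fun u : ℕ => (u : ℤ)) := Nat.cast_injective
  have hsub : ((Ioc 0 X).filter (fun t => t ∈ P A B D₀ D r)).image (fun u : ℕ => (u : ℤ)) ⊆
      (Par D₀ D 0 X).filter (fun t => r ≤
        rk (EF (D₀.eval t ^ 2 * A) (D₀.eval t ^ 3 * B) (Fb t).K) +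
          crk (EF (D₀.eval t ^ 2 * A) (D₀.eval t ^ 3 * B) (Fb t).K)) := by
    intro t ht
    rw [Finset.mem_image] at ht
    obtain ⟨u, hu, rfl⟩ := ht
    rw [Finset.mem_filter, Finset.mem_Ioc] at hu
    rw [Finset.mem_filter]
    refine ⟨?_, hFb' _ u rfl hu.2⟩
    unfold Par
    rw [Finset.mem_filter, Finset.mem_Ioc]
    refine ⟨⟨by exact_mod_cast hu.1.1, ?_⟩, hu.2.1⟩
    have := hu.1.2
    omega
  have h4 := Finset.card_le_card hsub
  rw [Finset.card_image_of_injective _ hinj] at h4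
  exact_mod_cast h4

open Classical in
/-- **Main result.** -/
theorem result (c : ℝ) (hc : 1 < c) :
    ∃ A₀ : Set ℝ, dimH A₀ < 1 ∧ ∀ (A B e₁ e₂ e₃ : ℤ), 4 * A ^ 3 + 27 * B ^ 2 ≠ 0 →
      (∀ x : ℤ, x ^ 3 + A * x + B = (x - e₁) * (x - e₂) * (x - e₃)) →
      ∀ (s : ℕ) (D₀ : ℤ[X]), D₀ ≠ 0 → ∀ D : Fin s → ℤ[X], (∀ i, D i ≠ 0) →
      ∃ C : ℕ → ℝ, ∀ α : ℝ, 0 < α → α ∉ A₀ →
        ∀ (F : ℕ → Type) [∀ n, Field (F n)] [∀ n, NumberField (F n)],
        (∀ n : ℕ, Good D₀ D ⌊α * (n : ℝ) ^ c⌋₊ → Gen (F n) (fun i => (D i).eval (⌊α * (n : ℝ) ^ c⌋₊ : ℤ))) →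
        ∀ W : ∀ n, WeierstrassCurve (F n),
        (∀ n : ℕ, W n = EF (D₀.eval (⌊α * (n : ℝ) ^ c⌋₊ : ℤ) ^ 2 * A)
          (D₀.eval (⌊α * (n : ℝ) ^ c⌋₊ : ℤ) ^ 3 * B) (F n)) →
        (∀ n : ℕ, Good D₀ D ⌊α * (n : ℝ) ^ c⌋₊ → BddAbove {q | HasDiv (W n) q}) ∧
        ∀ k r : ℕ, ∃ N₀ : ℕ, ∀ N : ℕ, N₀ ≤ N →
          (((Icc 1 N).filter (fun n : ℕ => Good D₀ D ⌊α * (n : ℝ) ^ c⌋₊ ∧
            r ≤ rk (W n) + crk (W n))).card : ℝ) ≤ C k / 2 ^ (k * r) * N := by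
  have hcp := countable_poly
  obtain ⟨A₀, hA₀, hmain⟩ := Pool.Agent.Y854.GM.sets c hc
    (fun v : (Σ s : ℕ, (ℤ × ℤ × ℕ) × ℤ[X] × (Fin s → ℤ[X])) =>
      P v.2.1.1 v.2.1.2.1 v.2.2.1 v.2.2.2 v.2.1.2.2)
  refine ⟨A₀, hA₀, fun A B e₁ e₂ e₃ hE he s D₀ hD₀ D hD => ?_⟩
  choose C hC using count A B e₁ e₂ e₃ hE he D₀ hD₀ D hD
  refine ⟨fun k => C k + 1, fun α hα hαA F _ _ hF W hW => ⟨fun n hn => ?_, fun k r => ?_⟩⟩
  · -- boundedness of the corank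
    obtain ⟨C', hC'⟩ := Pool.Agent.Results.MP_78d38b_nt.PolynomialFields.result A B e₁ e₂ e₃ hE he s
      D₀ hD₀ D hD 0 1
    set T : ℕ := ⌊α * (n : ℝ) ^ c⌋₊ with hT
    have hchoice : ∀ t : ℤ, ∃ G : NFld, Gen G.K (fun i => (D i).eval t) ∧
        (t = (T : ℤ) → (∀ m : ℕ, m = n → G = ⟨F m, inferInstance, inferInstance⟩)) := by
      intro t
      by_cases h : t = (T : ℤ)
      · subst h
        exact ⟨⟨F n, inferInstance, inferInstance⟩, hF n hn, fun _ m hm => by rw [hm]⟩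
      · obtain ⟨G, x, hx, hx'⟩ := exists_gen (fun i => (D i).eval t)
        exact ⟨G, ⟨x, hx, hx'⟩, fun h' => absurd h' h⟩
    choose Fb hFb hFb' using hchoice
    rcases Nat.eq_zero_or_pos T with h0 | h0
    · -- `t = 0`: use the interval `(-1, 1]`
      obtain ⟨h1, _, _⟩ := hC' (-1) 2 (by norm_num) (by norm_num) (fun t => (Fb t).K) (fun t _ => hFb t)
        (fun t => EF (D₀.eval t ^ 2 * A) (D₀.eval t ^ 3 * B) (Fb t).K) (fun _ => rfl)
      have h2 := h1 (T : ℤ) (by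
        unfold Par
        rw [Finset.mem_filter, Finset.mem_Ioc]
        exact ⟨⟨by rw [h0]; norm_num, by rw [h0]; norm_num⟩, hn⟩)
      have h3 := hFb' (T : ℤ) rfl n rfl
      rw [h3] at h2
      rw [hW n]
      exact h2
    · obtain ⟨h1, _, _⟩ := hC' 0 T h0 (by simp) (fun t => (Fb t).K) (fun t _ => hFb t)
        (fun t => EF (D₀.eval t ^ 2 * A) (D₀.eval t ^ 3 * B) (Fb t).K) (fun _ => rfl)
      have h2 := h1 (T : ℤ) (by
        unfold Par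
        rw [Finset.mem_filter, Finset.mem_Ioc]
        exact ⟨⟨by exact_mod_cast h0, by simp⟩, hn⟩)
      have h3 := hFb' (T : ℤ) rfl n rfl
      rw [h3] at h2
      rw [hW n]
      exact h2
  · obtain ⟨N₀, hN₀⟩ := (hmain α hα hαA ⟨s, (A, B, r), D₀, D⟩ (C k / 2 ^ (k * r)) (1 / 2 ^ (k * r))
      (by positivity)).1 ⟨1, fun X hX => by
        have := hC k r X hX
        calc _ ≤ _ := this
          _ = _ := by ring⟩
    refine ⟨N₀, fun N hN => ?_⟩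
    have h1 := hN₀ N hN
    have h2 : (Icc 1 N).filter (fun n : ℕ => Good D₀ D ⌊α * (n : ℝ) ^ c⌋₊ ∧
            r ≤ rk (W n) + crk (W n)) ⊆
        (Icc 1 N).filter (fun n : ℕ => ⌊α * (n : ℝ) ^ c⌋₊ ∈ P A B D₀ D r) := by
      intro n hn
      rw [Finset.mem_filter] at hn ⊢
      refine ⟨hn.1, hn.2.1, ⟨F n, inferInstance, inferInstance⟩, hF n hn.2.1, ?_⟩
      have h3 := hn.2.2
      rw [hW n] at h3
      exact h3
    have h3 : (((Icc 1 N).filter (fun n : ℕ => Good D₀ D ⌊α * (n : ℝ) ^ c⌋₊ ∧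
            r ≤ rk (W n) + crk (W n))).card : ℝ) ≤
        (((Icc 1 N).filter (fun n : ℕ => ⌊α * (n : ℝ) ^ c⌋₊ ∈ P A B D₀ D r)).card : ℝ) := by
      exact_mod_cast Finset.card_le_card h2
    calc _ ≤ _ := h3
      _ ≤ _ := h1
      _ = _ := by ring

end Pool.Agent.Results.MP_7cad78_nt.TwistsOverVaryingFields
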